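import Pool.Agent.H66Z.PR.Defs

set_option autoImplicit false

open MeasureTheory RCLike
open scoped ENNReal

namespace Pool.Agent.H66Z.PR

variable {𝕜 : Type*} [RCLike 𝕜] {H : Type*} [NormedAddCommGroup H] [InnerProductSpace 𝕜 H]
  {Ω : Type*} [MeasurableSpace Ω] {μ : Measure Ω} [IsProbabilityMeasure μ] {v : Ω → H}

/-- real inner product on the scalars -/
def dot (A B : 𝕜) : ℝ := re A * re B + im A * im B

lemma sq_sub_sq_dot (A B : 𝕜) : ‖A + B‖ ^ 2 - ‖A - B‖ ^ 2 = 4 * dot A B := by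
  simp only [norm_sq_eq_def, map_add, map_sub, dot]
  ring

lemma h_le_left (A B : 𝕜) : |‖A + B‖ - ‖A - B‖| ≤ 2 * ‖B‖ := by
  refine (abs_norm_sub_norm_le _ _).trans (le_of_eq ?_)
  rw [show A + B - (A - B) = 2 * B by ring, norm_mul]
  simp

lemma h_le_right (A B : 𝕜) : |‖A + B‖ - ‖A - B‖| ≤ 2 * ‖A‖ := by
  rw [add_comm, norm_sub_rev]
  exact h_le_left B A

lemma h_sq_le (A B : 𝕜) : (‖A + B‖ - ‖A - B‖) ^ 2 ≤ 4 * |dot A B| := by
  have h1 : 4 * |dot A B| = |‖A + B‖ - ‖A - B‖| * (‖A + B‖ + ‖A - B‖) := by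
    rw [← abs_of_nonneg (by positivity : 0 ≤ ‖A + B‖ + ‖A - B‖), ← abs_mul,
      show (4 : ℝ) * |dot A B| = |4 * dot A B| by rw [abs_mul]; norm_num, ← sq_sub_sq_dot]
    congr 1; ring
  rw [h1, ← sq_abs, sq]
  refine mul_le_mul_of_nonneg_left ?_ (abs_nonneg _)
  rw [abs_le]
  constructor <;> linarith [norm_nonneg (A + B), norm_nonneg (A - B)]

lemma orth_pair {p w : H} (hp : ‖p‖ = 1) (hw : ‖w‖ = 1) (him : im (inner 𝕜 p w) = 0) (l : 𝕜)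
    (hl : ‖l‖ = 1) : ‖(p + w) - l • (p - w)‖ = 2 := by
  have h0 : inner 𝕜 (p + w) (p - w) = 0 := by
    have h1 : inner 𝕜 w p = inner 𝕜 p w := by
      rw [← inner_conj_symm]
      exact conj_eq_iff_im.2 him
    rw [inner_add_left, inner_sub_right, inner_sub_right, h1, inner_self_eq_norm_sq_to_K,
      inner_self_eq_norm_sq_to_K, hp, hw]
    ring
  have h2 : ‖(p + w) - l • (p - w)‖ ^ 2 = 2 ^ 2 := by
    rw [@norm_sub_sq 𝕜, inner_smul_right, h0, norm_smul, hl]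
    have := parallelogram_law_with_norm 𝕜 p w
    rw [hp, hw] at this
    simp only [mul_zero, map_zero, one_mul]
    nlinarith
  exact (pow_left_inj₀ (norm_nonneg _) (by norm_num) two_ne_zero).1 h2

lemma ana_add (x y : H) (t : Ω) : ana 𝕜 v (x + y) t = ana 𝕜 v x t + ana 𝕜 v y t :=
  inner_add_right _ _ _

lemma ana_sub (x y : H) (t : Ω) : ana 𝕜 v (x - y) t = ana 𝕜 v x t - ana 𝕜 v y t :=
  inner_sub_right _ _ _

lemma ana_smul (l : 𝕜) (x : H) (t : Ω) : ana 𝕜 v (l • x) t = l * ana 𝕜 v x t :=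
  inner_smul_right _ _ _

lemma memLp_ana (hP : IsParseval 𝕜 μ v) {R : ℝ} (hR : ∀ t, ‖v t‖ ≤ R) (x : H) (p : ℝ≥0∞) :
    MemLp (ana 𝕜 v x) p μ :=
  MemLp.of_bound (hP.1 x).aestronglyMeasurable (R * ‖x‖) (Filter.Eventually.of_forall fun t =>
    (norm_inner_le_norm _ _).trans (mul_le_mul_of_nonneg_right (hR t) (norm_nonneg _)))

lemma eLp_two {E : Type*} [NormedAddCommGroup E] {f : Ω → E} (hf : MemLp f 2 μ) :
    eLpNorm f 2 μ = ENNReal.ofReal (Real.sqrt (∫ t, ‖f t‖ ^ 2 ∂μ)) := by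
  rw [hf.eLpNorm_eq_integral_rpow_norm (by norm_num) (by norm_num), Real.sqrt_eq_rpow]
  simp

lemma eLp_one {E : Type*} [NormedAddCommGroup E] {f : Ω → E} (hf : MemLp f 1 μ) :
    eLpNorm f 1 μ = ENNReal.ofReal (∫ t, ‖f t‖ ∂μ) := by
  rw [hf.eLpNorm_eq_integral_rpow_norm (by norm_num) (by norm_num)]
  simp

lemma int_sq (hP : IsParseval 𝕜 μ v) {R : ℝ} (hR : ∀ t, ‖v t‖ ≤ R) (x : H) :
    Integrable (fun t => ‖ana 𝕜 v x t‖ ^ 2) μ :=
  (memLp_two_iff_integrable_sq_norm (hP.1 x).aestronglyMeasurable).1 (memLp_ana hP hR x 2)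

lemma l2_pair (hP : IsParseval 𝕜 μ v) {R C : ℝ} (hC : 0 < C) (hR : ∀ t, ‖v t‖ ≤ R)
    (h2 : StableLp 2 μ (Set.range (ana 𝕜 v)) C) {p w : H} (hp : ‖p‖ = 1) (hw : ‖w‖ = 1) :
    1 ≤ C ^ 2 * ∫ t, min (‖ana 𝕜 v p t‖ ^ 2) (‖ana 𝕜 v w t‖ ^ 2) ∂μ := by
  obtain ⟨l₀, hl₀, hl₀'⟩ := exists_norm_eq_mul_self (inner 𝕜 p w)
  have hw' : ‖l₀ • w‖ = 1 := by rw [norm_smul, hl₀, hw, one_mul]
  have him : im (inner 𝕜 p (l₀ • w)) = 0 := by rw [inner_smul_right, ← hl₀']; simp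
  have hm : MemLp (fun t => ‖ana 𝕜 v (p + l₀ • w) t‖ - ‖ana 𝕜 v (p - l₀ • w) t‖) 2 μ :=
    (memLp_ana hP hR _ 2).norm.sub (memLp_ana hP hR _ 2).norm
  have h3 := h2 _ ⟨p + l₀ • w, rfl⟩ _ ⟨p - l₀ • w, rfl⟩
  have h4 : ENNReal.ofReal 2 ≤ ⨅ l : Metric.sphere (0 : 𝕜) 1, eLpNorm
      (fun t => ana 𝕜 v (p + l₀ • w) t - (l : 𝕜) * ana 𝕜 v (p - l₀ • w) t) 2 μ := by
    refine le_iInf fun l => le_of_eq ?_
    simp_rw [← ana_smul, ← ana_sub]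
    rw [eLp_two (memLp_ana hP hR _ 2), hP.2, Real.sqrt_sq (norm_nonneg _),
      orth_pair hp hw' him l (by simpa using l.2)]
  have h5 := h4.trans h3
  rw [eLp_two hm, ← ENNReal.ofReal_mul hC.le, ENNReal.ofReal_le_ofReal_iff (by positivity)] at h5
  set J := ∫ t, ‖‖ana 𝕜 v (p + l₀ • w) t‖ - ‖ana 𝕜 v (p - l₀ • w) t‖‖ ^ 2 ∂μ with hJ
  have hJ0 : 0 ≤ J := integral_nonneg fun t => by positivity
  have h6 : 4 ≤ C ^ 2 * J := by
    have := mul_self_le_mul_self (by norm_num) h5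
    nlinarith [Real.mul_self_sqrt hJ0]
  have h7 : J ≤ 4 * ∫ t, min (‖ana 𝕜 v p t‖ ^ 2) (‖ana 𝕜 v w t‖ ^ 2) ∂μ := by
    rw [← integral_const_mul]
    refine integral_mono ((memLp_two_iff_integrable_sq_norm hm.1).1 hm)
      (((int_sq hP hR p).inf (int_sq hP hR w)).const_mul 4) fun t => ?_
    have a1 := h_le_left (ana 𝕜 v p t) (ana 𝕜 v (l₀ • w) t)
    have a2 := h_le_right (ana 𝕜 v p t) (ana 𝕜 v (l₀ • w) t)
    have a3 : ‖ana 𝕜 v (l₀ • w) t‖ = ‖ana 𝕜 v w t‖ := by rw [ana_smul, norm_mul, hl₀, one_mul]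
    rw [a3] at a1
    simp only [ana_add, ana_sub, Real.norm_eq_abs]
    have b1 := mul_self_le_mul_self (abs_nonneg _) a1
    have b2 := mul_self_le_mul_self (abs_nonneg _) a2
    rcases min_cases (‖ana 𝕜 v p t‖ ^ 2) (‖ana 𝕜 v w t‖ ^ 2) with ⟨h, _⟩ | ⟨h, _⟩ <;>
      rw [h] <;> nlinarith
  nlinarith [sq_nonneg C]

lemma l1_lower [FiniteDimensional 𝕜 H] (hP : IsParseval 𝕜 μ v) {β C : ℝ} (hC : 0 < C) (hβ : 0 < β)
    (hR : ∀ t, ‖v t‖ ≤ β * Real.sqrt (Module.finrank 𝕜 H))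
    (h2 : StableLp 2 μ (Set.range (ana 𝕜 v)) C) (u : H) :
    ‖u‖ ≤ β * C ^ 2 * ∫ t, ‖ana 𝕜 v u t‖ ∂μ := by
  have key : ∀ u : H, ‖u‖ = 1 → 1 ≤ β * C ^ 2 * ∫ t, ‖ana 𝕜 v u t‖ ∂μ := by
    intro u hu
    set n := Module.finrank 𝕜 H with hn
    let b := stdOrthonormalBasis 𝕜 H
    have hn0 : 0 < n := by
      have : Nontrivial H := ⟨u, 0, fun h => by simp [h] at hu⟩
      exact Module.finrank_pos
    have hnr : (0 : ℝ) < n := by exact_mod_cast hn0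
    have h1 : (n : ℝ) ≤ C ^ 2 * ∫ t, ∑ i, min (‖ana 𝕜 v u t‖ ^ 2) (‖ana 𝕜 v (b i) t‖ ^ 2) ∂μ := by
      rw [integral_finset_sum (f := fun i t => min (‖ana 𝕜 v u t‖ ^ 2) (‖ana 𝕜 v (b i) t‖ ^ 2)) _
        fun i _ => (int_sq hP hR u).inf (int_sq hP hR (b i)), Finset.mul_sum]
      calc (n : ℝ) = ∑ _i : Fin n, (1 : ℝ) := by simp
        _ ≤ _ := Finset.sum_le_sum fun i _ => l2_pair hP hC hR h2 hu (b.norm_eq_one i)
    have h3 : ∫ t, ∑ i, min (‖ana 𝕜 v u t‖ ^ 2) (‖ana 𝕜 v (b i) t‖ ^ 2) ∂μ ≤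
        n * β * ∫ t, ‖ana 𝕜 v u t‖ ∂μ := by
      rw [← integral_const_mul]
      refine integral_mono (integrable_finset_sum _ fun i _ =>
        (int_sq hP hR u).inf (int_sq hP hR (b i)))
        ((memLp_one_iff_integrable.1 (memLp_ana hP hR u 1)).norm.const_mul _) fun t => ?_
      have ha := norm_nonneg (ana 𝕜 v u t)
      rcases le_total ‖ana 𝕜 v u t‖ β with h | h
      · calc ∑ i, min (‖ana 𝕜 v u t‖ ^ 2) (‖ana 𝕜 v (b i) t‖ ^ 2)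
            ≤ ∑ _i : Fin n, ‖ana 𝕜 v u t‖ ^ 2 := Finset.sum_le_sum fun i _ => min_le_left _ _
          _ = n * ‖ana 𝕜 v u t‖ ^ 2 := by simp
          _ ≤ n * β * ‖ana 𝕜 v u t‖ := by
              rw [mul_assoc]; exact mul_le_mul_of_nonneg_left (by nlinarith) hnr.le
      · calc ∑ i, min (‖ana 𝕜 v u t‖ ^ 2) (‖ana 𝕜 v (b i) t‖ ^ 2)
            ≤ ∑ i, ‖inner 𝕜 (v t) (b i)‖ ^ 2 := Finset.sum_le_sum fun i _ => min_le_right _ _
          _ = ‖v t‖ ^ 2 := b.sum_sq_norm_inner_left _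
          _ ≤ (β * Real.sqrt n) ^ 2 := pow_le_pow_left₀ (norm_nonneg _) (hR t) 2
          _ = n * β * β := by rw [mul_pow, Real.sq_sqrt hnr.le]; ring
          _ ≤ n * β * ‖ana 𝕜 v u t‖ := mul_le_mul_of_nonneg_left h (by positivity)
    have h4 := h1.trans (mul_le_mul_of_nonneg_left h3 (sq_nonneg C))
    refine le_of_mul_le_mul_left ?_ hnr
    linarith
  rcases eq_or_ne u 0 with rfl | hu
  · rw [norm_zero]
    exact mul_nonneg (by positivity) (integral_nonneg fun t => norm_nonneg _)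
  · have hu0 : 0 < ‖u‖ := norm_pos_iff.2 hu
    have h1 := key (((‖u‖⁻¹ : ℝ) : 𝕜) • u) (by
      rw [norm_smul, norm_ofReal, abs_of_pos (inv_pos.2 hu0), inv_mul_cancel₀ hu0.ne'])
    simp_rw [ana_smul, norm_mul, norm_ofReal, abs_of_pos (inv_pos.2 hu0)] at h1
    rw [integral_const_mul] at h1
    have := mul_le_mul_of_nonneg_left h1 hu0.le
    calc ‖u‖ = ‖u‖ * 1 := (mul_one _).symm
      _ ≤ _ := this
      _ = _ := by field_simp

lemma small_ball [FiniteDimensional 𝕜 H] (hP : IsParseval 𝕜 μ v) {β C c : ℝ} (hC : 0 < C)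
    (hβ : 0 < β) (hc : c = 1 / (β * C ^ 3))
    (hR : ∀ t, ‖v t‖ ≤ β * Real.sqrt (Module.finrank 𝕜 H))
    (h1 : StableLp 1 μ (Set.range (ana 𝕜 v)) C)
    (h2 : StableLp 2 μ (Set.range (ana 𝕜 v)) C) {p w : H} (hp : ‖p‖ = 1) (hw : ‖w‖ = 1)
    (him : im (inner 𝕜 p w) = 0) :
    c ^ 2 / 16 ≤ μ.real {t | c ^ 2 / 16 ≤ |dot (ana 𝕜 v p t) (ana 𝕜 v w t)| ∧
      ‖ana 𝕜 v p t‖ ≤ 8 / c ∧ ‖ana 𝕜 v w t‖ ≤ 8 / c} := by
  have hc0 : 0 < c := by rw [hc]; positivity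
  set E := {t | c ^ 2 / 16 ≤ |dot (ana 𝕜 v p t) (ana 𝕜 v w t)| ∧
      ‖ana 𝕜 v p t‖ ≤ 8 / c ∧ ‖ana 𝕜 v w t‖ ≤ 8 / c} with hE
  have hmp := hP.1 p
  have hmw := hP.1 w
  have hEm : MeasurableSet E := by
    have hd : Measurable fun t => |dot (ana 𝕜 v p t) (ana 𝕜 v w t)| :=
      ((hmp.re.mul hmw.re).add (hmp.im.mul hmw.im)).abs
    exact (measurableSet_le measurable_const hd).inter
      ((measurableSet_le hmp.norm measurable_const).inter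
        (measurableSet_le hmw.norm measurable_const))
  have hm : MemLp (fun t => ‖ana 𝕜 v (p + w) t‖ - ‖ana 𝕜 v (p - w) t‖) 1 μ :=
    (memLp_ana hP hR _ 1).norm.sub (memLp_ana hP hR _ 1).norm
  have h3 := h1 _ ⟨p + w, rfl⟩ _ ⟨p - w, rfl⟩
  have h4 : ENNReal.ofReal (2 / (β * C ^ 2)) ≤ ⨅ l : Metric.sphere (0 : 𝕜) 1, eLpNorm
      (fun t => ana 𝕜 v (p + w) t - (l : 𝕜) * ana 𝕜 v (p - w) t) 1 μ := by
    refine le_iInf fun l => ?_
    simp_rw [← ana_smul, ← ana_sub]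
    rw [eLp_one (memLp_ana hP hR _ 1)]
    refine ENNReal.ofReal_le_ofReal ?_
    have := l1_lower hP hC hβ hR h2 (p + w - (l : 𝕜) • (p - w))
    rw [orth_pair hp hw him l (by simpa using l.2)] at this
    rw [div_le_iff₀ (by positivity)]
    linarith
  have h5 := h4.trans h3
  rw [eLp_one hm, ← ENNReal.ofReal_mul hC.le, ENNReal.ofReal_le_ofReal_iff
    (mul_nonneg hC.le (integral_nonneg fun t => norm_nonneg _))] at h5
  have h6 : 2 * c ≤ ∫ t, ‖‖ana 𝕜 v (p + w) t‖ - ‖ana 𝕜 v (p - w) t‖‖ ∂μ := by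
    refine le_of_mul_le_mul_left (le_trans (le_of_eq ?_) h5) hC
    rw [hc]; field_simp
  have hi0 : Integrable (fun t => 16 / c * E.indicator (1 : Ω → ℝ) t) μ :=
    ((integrable_const (1 : ℝ)).indicator hEm).const_mul _
  have hi1 : Integrable (fun t => c / 2 + 16 / c * E.indicator (1 : Ω → ℝ) t) μ :=
    (integrable_const _).add hi0
  have hi2 : Integrable (fun t => c / 4 * (‖ana 𝕜 v p t‖ ^ 2 + ‖ana 𝕜 v w t‖ ^ 2)) μ :=
    ((int_sq hP hR p).add (int_sq hP hR w)).const_mul _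
  have h7 : ∫ t, ‖‖ana 𝕜 v (p + w) t‖ - ‖ana 𝕜 v (p - w) t‖‖ ∂μ ≤
      ∫ t, (c / 2 + 16 / c * E.indicator (1 : Ω → ℝ) t) +
        c / 4 * (‖ana 𝕜 v p t‖ ^ 2 + ‖ana 𝕜 v w t‖ ^ 2) ∂μ := by
    refine integral_mono (memLp_one_iff_integrable.1 hm).norm (hi1.add hi2) fun t => ?_
    simp only [ana_add, ana_sub, Real.norm_eq_abs]
    have a1 := h_le_left (ana 𝕜 v p t) (ana 𝕜 v w t)
    have a2 := h_le_right (ana 𝕜 v p t) (ana 𝕜 v w t)
    have a3 := h_sq_le (ana 𝕜 v p t) (ana 𝕜 v w t)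
    have a4 := norm_nonneg (ana 𝕜 v p t)
    have a5 := norm_nonneg (ana 𝕜 v w t)
    by_cases ht : t ∈ E
    · rw [Set.indicator_of_mem ht]
      have := ht.2.1
      have e : 16 / c = 2 * (8 / c) := by ring
      have : 0 ≤ c / 4 * (‖ana 𝕜 v p t‖ ^ 2 + ‖ana 𝕜 v w t‖ ^ 2) := by positivity
      simp only [Pi.one_apply, mul_one]
      linarith
    · rw [Set.indicator_of_notMem ht, mul_zero, add_zero]
      simp only [hE, Set.mem_ofPred_eq, not_and_or, not_le] at ht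
      rcases ht with ht | ht | ht
      · have : |‖ana 𝕜 v p t + ana 𝕜 v w t‖ - ‖ana 𝕜 v p t - ana 𝕜 v w t‖| ≤ c / 2 :=
          abs_le_of_sq_le_sq (by nlinarith) (by positivity)
        have : 0 ≤ c / 4 * (‖ana 𝕜 v p t‖ ^ 2 + ‖ana 𝕜 v w t‖ ^ 2) := by positivity
        linarith
      · rw [div_lt_iff₀ hc0] at ht
        nlinarith [mul_nonneg hc0.le (sq_nonneg ‖ana 𝕜 v w t‖)]
      · rw [div_lt_iff₀ hc0] at ht
        nlinarith [mul_nonneg hc0.le (sq_nonneg ‖ana 𝕜 v p t‖)]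
  rw [integral_add hi1 hi2, integral_add (integrable_const _) hi0, integral_const_mul,
    integral_const_mul, integral_indicator_one hEm, integral_add (int_sq hP hR p) (int_sq hP hR w),
    hP.2, hP.2, hp, hw] at h7
  simp only [integral_const, probReal_univ, smul_eq_mul, one_mul] at h7
  have h8 : c ≤ 16 / c * μ.real E := by linarith
  rw [div_mul_eq_mul_div, le_div_iff₀ hc0] at h8
  linarith

end Pool.Agent.H66Z.PR
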