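import Mathlib

set_option autoImplicit false

open MeasureTheory
open scoped ENNReal

namespace Pool.Agent.H66Z.PR

/-- The analysis operator of a family `v` of vectors: `x` is sent to `t ↦ ⟨x, v t⟩`
(linear in `x`). -/
def ana (𝕜 : Type*) [RCLike 𝕜] {H : Type*} [NormedAddCommGroup H] [InnerProductSpace 𝕜 H]
    {Ω : Type*} (v : Ω → H) (x : H) : Ω → 𝕜 :=
  fun t => inner 𝕜 (v t) x

/-- Continuous Parseval frame. -/
def IsParseval (𝕜 : Type*) [RCLike 𝕜] {H : Type*} [NormedAddCommGroup H] [InnerProductSpace 𝕜 H]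
    {Ω : Type*} [MeasurableSpace Ω] (μ : Measure Ω) (v : Ω → H) : Prop :=
  (∀ x, Measurable (ana 𝕜 v x)) ∧ ∀ x, ∫ t, ‖ana 𝕜 v x t‖ ^ 2 ∂μ = ‖x‖ ^ 2

/-- A set `E` of functions does `C`-stable phase retrieval in `L_p`. -/
def StableLp {𝕜 : Type*} [RCLike 𝕜] {Ω : Type*} [MeasurableSpace Ω] (p : ℝ≥0∞) (μ : Measure Ω)
    (E : Set (Ω → 𝕜)) (C : ℝ) : Prop :=
  ∀ f ∈ E, ∀ g ∈ E, ⨅ l : Metric.sphere (0 : 𝕜) 1, eLpNorm (fun t => f t - (l : 𝕜) * g t) p μ ≤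
    ENNReal.ofReal C * eLpNorm (fun t => ‖f t‖ - ‖g t‖) p μ

/-- A finite family does `κ`-stable phase retrieval. -/
def StableFin (𝕜 : Type*) [RCLike 𝕜] {H : Type*} [NormedAddCommGroup H] [InnerProductSpace 𝕜 H]
    {m : ℕ} (y : Fin m → H) (κ : ℝ) : Prop :=
  ∀ x x' : H, ⨅ l : Metric.sphere (0 : 𝕜) 1, ‖x - (l : 𝕜) • x'‖ ≤
    κ * Real.sqrt (∑ j, (‖inner 𝕜 (y j) x‖ - ‖inner 𝕜 (y j) x'‖) ^ 2)

end Pool.Agent.H66Z.PR
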