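import Pool.Agent.H66Z.PR.VC

set_option autoImplicit false

open Finset MeasureTheory

namespace Pool.Agent.H66Z.PR

lemma cnt_mono {ι Ω : Type*} [Fintype ι] (t : ι → Ω) {P Q : Ω → Prop} (h : ∀ ω, P ω → Q ω) :
    cnt t P ≤ cnt t Q := by
  classical
  unfold cnt
  refine sum_le_sum fun j _ => ?_
  by_cases hp : P (t j)
  · simp [hp, h _ hp]
  · simp only [hp, if_false]; split_ifs <;> norm_num

lemma cnt_nonneg {ι Ω : Type*} [Fintype ι] (t : ι → Ω) (P : Ω → Prop) : 0 ≤ cnt t P := by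
  classical
  unfold cnt
  exact sum_nonneg fun j _ => by split_ifs <;> norm_num

lemma discretize {Ω X : Type*} [MeasurableSpace Ω] (μ : Measure Ω) [IsProbabilityMeasure μ]
    (q : Ω → X) (F : Finset X) (hF : ∀ ω, q ω ∈ F) (hq : ∀ a, MeasurableSet (q ⁻¹' {a})) (M : ℕ) :
    ∃ t : Fin M → Ω, ∀ (E : Set Ω) (P : Ω → Prop), (∀ ω ∈ E, ∀ ω', q ω' = q ω → P ω') →
      μ.real E * M - #F ≤ cnt t P := by
  classical
  have hne : Nonempty Ω := nonempty_of_isProbabilityMeasure μ
  let k : F → ℕ := fun a => ⌊μ.real (q ⁻¹' {a.1}) * M⌋₊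
  have hsum1 : ∑ a : F, μ.real (q ⁻¹' {a.1}) = 1 := by
    rw [sum_coe_sort F (fun a => μ.real (q ⁻¹' {a})),
      sum_measureReal_preimage_singleton F (fun a _ => hq a)]
    have : q ⁻¹' (F : Set X) = Set.univ := Set.eq_univ_of_forall fun ω => hF ω
    rw [this, probReal_univ]
  have hk : ∑ a, k a ≤ M := by
    have : ((∑ a, k a : ℕ) : ℝ) ≤ M := by
      push_cast
      calc ∑ a, (k a : ℝ) ≤ ∑ a : F, μ.real (q ⁻¹' {a.1}) * M :=
            sum_le_sum fun a _ => Nat.floor_le (by positivity)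
        _ = M := by rw [← sum_mul, hsum1, one_mul]
    exact_mod_cast this
  obtain ⟨e⟩ : Nonempty ((Σ a : F, Fin (k a)) ↪ Fin M) :=
    Function.Embedding.nonempty_of_card_le (by simpa using hk)
  let rep : X → Ω := Function.invFun q
  let t : Fin M → Ω := Function.extend e (fun p => rep p.1.1) (fun _ => Classical.arbitrary Ω)
  have ht : ∀ p, t (e p) = rep p.1.1 := fun p => e.injective.extend_apply _ _ p
  refine ⟨t, fun E P hP => ?_⟩
  have h1 : ∑ p : (Σ a : F, Fin (k a)), (if P (rep p.1.1) then (1 : ℝ) else 0) ≤ cnt t P := by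
    unfold cnt
    calc ∑ p : (Σ a : F, Fin (k a)), (if P (rep p.1.1) then (1 : ℝ) else 0)
        = ∑ j ∈ univ.map e, (if P (t j) then (1 : ℝ) else 0) := by
          rw [sum_map]; simp only [ht]
      _ ≤ _ := sum_le_sum_of_subset_of_nonneg (subset_univ _) fun j _ _ => by
          split_ifs <;> norm_num
  refine le_trans ?_ h1
  rw [Fintype.sum_sigma]
  have h0 : ∀ a : F, ∑ _x : Fin (k a), (if P (rep a.1) then (1 : ℝ) else 0) =
      (k a : ℝ) * (if P (rep a.1) then 1 else 0) := fun a => by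
    rw [sum_const, card_univ, Fintype.card_fin, nsmul_eq_mul]
  rw [sum_congr rfl fun a _ => h0 a]
  let G : Finset X := F.filter fun a => ∃ ω ∈ E, q ω = a
  have h2 : μ.real E ≤ ∑ a : F, if a.1 ∈ G then μ.real (q ⁻¹' {a.1}) else 0 := by
    rw [sum_coe_sort F (fun a => if a ∈ G then μ.real (q ⁻¹' {a}) else 0), ← sum_filter,
      sum_measureReal_preimage_singleton _ (fun a _ => hq a)]
    refine measureReal_mono fun ω hω => ?_
    simp only [coe_filter, Set.mem_preimage, Set.mem_ofPred_eq, G, mem_filter]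
    exact ⟨hF ω, hF ω, ω, hω, rfl⟩
  have h3 : ∀ a : F, (if a.1 ∈ G then μ.real (q ⁻¹' {a.1}) else 0) * M - 1 ≤
      (k a : ℝ) * (if P (rep a.1) then 1 else 0) := by
    intro a
    by_cases ha : a.1 ∈ G
    · obtain ⟨ω, hω, hqω⟩ := (mem_filter.1 ha).2
      have : P (rep a.1) := hP ω hω _ ((Function.invFun_eq ⟨ω, hqω⟩).trans hqω.symm)
      rw [if_pos ha, if_pos this, mul_one]
      exact (Nat.sub_one_lt_floor _).le
    · rw [if_neg ha]
      have : (0 : ℝ) ≤ (k a : ℝ) * (if P (rep a.1) then 1 else 0) := by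
        split_ifs <;> simp
      linarith
  refine le_trans ?_ (sum_le_sum fun a _ => h3 a)
  rw [sum_sub_distrib, ← sum_mul]
  simp only [sum_const, card_univ, Fintype.card_coe, nsmul_eq_mul, mul_one]
  have := mul_le_mul_of_nonneg_right h2 (Nat.cast_nonneg (α := ℝ) M)
  linarith

/-- Sampling theorem: `O(d)` points see every robust event described by `r` linear forms. -/
theorem sampling (r : ℕ) (b : ℝ) (hb : 0 < b) : ∃ D : ℕ, 0 < D ∧
    ∀ (κ : Type) [Fintype κ] (Ω : Type*) [MeasurableSpace Ω] (μ : Measure Ω)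
      [IsProbabilityMeasure μ] (z : Ω → κ → ℝ), (∀ k, Measurable fun ω => z ω k) →
      ∀ R : ℝ, (∀ ω k, |z ω k| ≤ R) → ∀ σ : ℝ, 0 < σ →
      ∃ s : Fin (D * (Fintype.card κ + 1)) → Ω, ∀ (c : Fin r → κ → ℝ) (o : Fin r → ℝ) (E : Set Ω),
        (∀ i k, |c i k| ≤ 1) → (∀ ω ∈ E, ∀ i, |∑ k, c i k * z ω k - o i| ≤ σ) →
        (μ.real E - b) * (D * (Fintype.card κ + 1) : ℕ) ≤
          cnt s (fun ω => ∀ i, |∑ k, c i k * z ω k - o i| ≤ 2 * σ) := by
  classical
  obtain ⟨D, hD⟩ := exists_nat_gt (20000 * (2 * r : ℝ) ^ 2 / (b / 2) ^ 4)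
  have hD0 : 0 < D := by
    have : (0 : ℝ) < D := lt_of_le_of_lt (by positivity) hD
    exact_mod_cast this
  refine ⟨D, hD0, ?_⟩
  intro κ _ Ω _ μ _ z hz R hR σ hσ
  set d := Fintype.card κ with hd
  set N := D * (d + 1) with hN
  have hN0 : (0 : ℝ) < N := by positivity
  set ρ : ℝ := σ / (d + 1) with hρ
  have hρ0 : 0 < ρ := by positivity
  let q : Ω → κ → ℤ := fun ω k => ⌊z ω k / ρ⌋
  let L : ℤ := ⌈R / ρ⌉
  let F : Finset (κ → ℤ) := Fintype.piFinset fun _ => Finset.Icc (-L) L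
  have hF : ∀ ω, q ω ∈ F := by
    intro ω
    rw [Fintype.mem_piFinset]
    intro k
    have h1 := abs_le.1 (hR ω k)
    have h2 : R / ρ ≤ L := Int.le_ceil _
    have h3 : z ω k / ρ ≤ R / ρ := div_le_div_of_nonneg_right h1.2 hρ0.le
    have h4 : -R / ρ ≤ z ω k / ρ := div_le_div_of_nonneg_right h1.1 hρ0.le
    rw [neg_div] at h4
    rw [mem_Icc]
    constructor
    · exact Int.le_floor.2 (by push_cast; linarith)
    · have := Int.floor_le (z ω k / ρ)
      have h5 : ((⌊z ω k / ρ⌋ : ℤ) : ℝ) ≤ L := by linarith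
      exact_mod_cast h5
  have hq : ∀ a, MeasurableSet (q ⁻¹' {a}) := by
    intro a
    have : Measurable q := measurable_pi_lambda _ fun k => ((hz k).div_const ρ).floor
    exact this (measurableSet_singleton a)
  obtain ⟨k, hk⟩ := pow_unbounded_of_one_lt ((#F : ℝ) / (b / 2)) (one_lt_two (α := ℝ))
  obtain ⟨t, ht⟩ := discretize μ q F hF hq (2 ^ k * N)
  let z' : Ω → Option κ → ℝ := fun ω k => k.elim 1 (z ω)
  have hc' : Fintype.card (Option κ) = d + 1 := by simp [hd]
  obtain ⟨s, hs⟩ := iter_halving (ρ := Fin r × Bool) z' (by rw [hc']; omega) k N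
    (by rw [hc', hN]; exact Nat.le_mul_of_pos_left _ hD0) (b / 2) (by positivity) (by
      rw [hc', hN]
      simp only [Fintype.card_prod, Fintype.card_fin, Fintype.card_bool]
      push_cast
      rw [mul_div_assoc, div_self (by positivity), mul_one]
      rw [div_lt_iff₀ (by positivity)] at hD
      nlinarith) t
  refine ⟨s, fun c o E hc hE => ?_⟩
  let c' : Fin r × Bool → Option κ → ℝ := fun p k =>
    k.elim (2 * σ + sg p.2 * o p.1) (fun k => -(sg p.2 * c p.1 k))
  have hbox : ∀ ω, Box c' (z' ω) ↔ ∀ i, |∑ k, c i k * z ω k - o i| ≤ 2 * σ := by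
    intro ω
    have e : ∀ p : Fin r × Bool, ∑ k, c' p k * z' ω k =
        2 * σ - sg p.2 * (∑ k, c p.1 k * z ω k - o p.1) := by
      intro p
      rw [Fintype.sum_option]
      simp only [c', z', Option.elim_none, Option.elim_some, mul_one, neg_mul, sum_neg_distrib,
        mul_assoc, ← mul_sum]
      ring
    unfold Box
    simp only [e, Prod.forall, Bool.forall_bool, sg, if_true, Bool.false_eq_true, if_false, abs_le]
    refine forall_congr' fun i => ⟨fun h => ⟨by linarith [h.1], by linarith [h.2]⟩,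
      fun h => ⟨by linarith [h.1], by linarith [h.2]⟩⟩
  have h1 := hs c'
  simp only [hbox] at h1
  have h2 := ht E (fun ω => ∀ i, |∑ k, c i k * z ω k - o i| ≤ 2 * σ) (by
    intro ω hω ω' hqq i
    have h3 : ∀ k, |z ω' k - z ω k| ≤ ρ := by
      intro k
      have h4 := Int.abs_sub_lt_one_of_floor_eq_floor (congrFun hqq k)
      rw [← sub_div, abs_div, abs_of_pos hρ0, div_lt_one hρ0] at h4
      exact h4.le
    have h5 : |∑ k, c i k * z ω' k - ∑ k, c i k * z ω k| ≤ σ := by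
      rw [← sum_sub_distrib]
      refine (abs_sum_le_sum_abs _ _).trans ?_
      calc ∑ k, |c i k * z ω' k - c i k * z ω k| ≤ ∑ _k : κ, ρ := by
            refine sum_le_sum fun k _ => ?_
            rw [← mul_sub, abs_mul]
            exact (mul_le_mul (hc i k) (h3 k) (abs_nonneg _) zero_le_one).trans (one_mul ρ).le
        _ = d * ρ := by simp [hd]
        _ ≤ (d + 1) * ρ := by nlinarith
        _ = σ := by rw [hρ]; field_simp
    have h6 := hE ω hω i
    rw [abs_le] at h5 h6 ⊢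
    constructor <;> linarith [h5.1, h5.2, h6.1, h6.2])
  refine le_trans ?_ h1
  have h7 : (μ.real E * ((2 ^ k * N : ℕ) : ℝ) - #F) / 2 ^ k ≤
      cnt t (fun ω => ∀ i, |∑ k, c i k * z ω k - o i| ≤ 2 * σ) / 2 ^ k :=
    div_le_div_of_nonneg_right h2 (by positivity)
  have h8 : (μ.real E * ((2 ^ k * N : ℕ) : ℝ) - #F) / 2 ^ k = μ.real E * N - #F / 2 ^ k := by
    push_cast; field_simp
  have h9 : (#F : ℝ) / 2 ^ k ≤ b / 2 * N := by
    rw [div_lt_iff₀ (by positivity)] at hk
    rw [div_le_iff₀ (by positivity)]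
    have hN1 : (1 : ℝ) ≤ N := by
      have : 0 < N := by exact_mod_cast hN0
      exact_mod_cast this
    have : (0 : ℝ) < 2 ^ k * (b / 2) := by positivity
    nlinarith
  linarith

end Pool.Agent.H66Z.PR
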