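import Pool.Agent.H66Z.PR.Ball
import Pool.Agent.H66Z.PR.Samp

set_option autoImplicit false

open MeasureTheory RCLike Finset
open scoped ENNReal

namespace Pool.Agent.H66Z.PR

universe u w

lemma robust {a K σ : ℝ} (hσ : 0 < σ) (hσ1 : σ ≤ 1 / 3) (hσ2 : 12 * (2 * K + 1) * σ ≤ a)
    (y y' o : Fin 4 → ℝ) (h1 : a ≤ |y 0 * y 2 + y 1 * y 3|) (h2 : ∀ i, |y i| ≤ K)
    (h3 : ∀ i, |y i - o i| ≤ σ) (h4 : ∀ i, |y' i - o i| ≤ 2 * σ) :
    a / 2 ≤ |y' 0 * y' 2 + y' 1 * y' 3| ∧ ∀ i, |y' i| ≤ K + 1 := by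
  have h5 : ∀ i, |y' i - y i| ≤ 3 * σ := fun i => by
    have a1 := abs_le.1 (h3 i)
    have a2 := abs_le.1 (h4 i)
    rw [abs_le]; constructor <;> linarith [a1.1, a1.2, a2.1, a2.2]
  have h6 : ∀ i, |y' i| ≤ K + 1 := fun i => by
    have a1 := abs_le.1 (h5 i)
    have a2 := abs_le.1 (h2 i)
    rw [abs_le]; constructor <;> linarith [a1.1, a1.2, a2.1, a2.2]
  have h7 : ∀ i j, |y' i * y' j - y i * y j| ≤ 3 * σ * (2 * K + 1) := fun i j => by
    rw [show y' i * y' j - y i * y j = (y' i - y i) * y' j + (y' j - y j) * y i by ring]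
    refine (abs_add_le _ _).trans ?_
    rw [abs_mul, abs_mul]
    have a1 := mul_le_mul (h5 i) (h6 j) (abs_nonneg _) (by positivity)
    have a2 := mul_le_mul (h5 j) (h2 i) (abs_nonneg _) (by positivity)
    linarith
  refine ⟨?_, h6⟩
  have a1 := abs_le.1 (h7 0 2)
  have a2 := abs_le.1 (h7 1 3)
  rcases le_abs'.1 h1 with h | h
  · exact le_abs'.2 (Or.inl (by linarith [a1.1, a1.2, a2.1, a2.2]))
  · exact le_abs'.2 (Or.inr (by linarith [a1.1, a1.2, a2.1, a2.2]))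

lemma sample_good (𝕜 : Type*) [RCLike 𝕜] (a K b : ℝ) (ha : 0 < a) (hK : 0 < K) (hb : 0 < b) :
    ∃ (D : ℕ) (b' : ℝ), 0 < D ∧ 0 < b' ∧ ∀ (H : Type u) [NormedAddCommGroup H]
      [InnerProductSpace 𝕜 H] [FiniteDimensional 𝕜 H] (n : ℕ), Module.finrank 𝕜 H = n →
      ∀ (Ω : Type w) [MeasurableSpace Ω] (μ : Measure Ω) [IsProbabilityMeasure μ] (v : Ω → H),
      (∀ x, Measurable (ana 𝕜 v x)) → ∀ R : ℝ, (∀ t, ‖v t‖ ≤ R) →
      ∃ s : Fin (D * (2 * n + 1)) → Ω, ∀ p w : H, ‖p‖ = 1 → ‖w‖ = 1 →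
        b ≤ μ.real {t | a ≤ |dot (ana 𝕜 v p t) (ana 𝕜 v w t)| ∧
          ‖ana 𝕜 v p t‖ ≤ K ∧ ‖ana 𝕜 v w t‖ ≤ K} →
        b' * (D * (2 * n + 1) : ℕ) ≤ cnt s (fun t => a / 2 ≤ |dot (ana 𝕜 v p t) (ana 𝕜 v w t)| ∧
          ‖ana 𝕜 v p t‖ + ‖ana 𝕜 v w t‖ ≤ 4 * (K + 1)) := by
  classical
  set σ : ℝ := min (1 / 3) (a / (12 * (2 * K + 1))) with hσ
  have hσ0 : 0 < σ := lt_min (by norm_num) (by positivity)
  have hσ1 : σ ≤ 1 / 3 := min_le_left _ _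
  have hσ2 : 12 * (2 * K + 1) * σ ≤ a := by
    have : σ ≤ a / (12 * (2 * K + 1)) := min_le_right _ _
    rwa [le_div_iff₀' (by positivity)] at this
  obtain ⟨F, -, hFfin, hF⟩ := finite_cover_balls_of_compact
    (isCompact_closedBall (0 : Fin 4 → ℝ) K) hσ0
  set G := hFfin.toFinset with hG
  have hG0 : 0 < #G := by
    have := hF (Metric.mem_closedBall_self hK.le)
    simp only [Set.mem_iUnion] at this
    obtain ⟨o, ho, -⟩ := this
    exact card_pos.2 ⟨o, hFfin.mem_toFinset.2 ho⟩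
  have hGr : (0 : ℝ) < #G := by exact_mod_cast hG0
  obtain ⟨D, hD0, hD⟩ := sampling.{w} 4 (b / #G / 2) (by positivity)
  refine ⟨D, b / #G / 2, hD0, by positivity, ?_⟩
  intro H _ _ _ n hn Ω _ μ _ v hv R hR
  let e := (stdOrthonormalBasis 𝕜 H).reindex (finCongr hn)
  let z : Ω → Fin n × Bool → ℝ := fun t k =>
    if k.2 then re (ana 𝕜 v (e k.1) t) else im (ana 𝕜 v (e k.1) t)
  have hz : ∀ k, Measurable fun t => z t k := by
    rintro ⟨i, _ | _⟩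
    · exact (hv _).im
    · exact (hv _).re
  have hzR : ∀ t k, |z t k| ≤ R := by
    intro t k
    have : ‖ana 𝕜 v (e k.1) t‖ ≤ R := by
      refine (norm_inner_le_norm _ _).trans ?_
      rw [e.norm_eq_one, mul_one]; exact hR t
    simp only [z]
    split_ifs
    · exact (abs_re_le_norm _).trans this
    · exact (abs_im_le_norm _).trans this
  have hcard : Fintype.card (Fin n × Bool) + 1 = 2 * n + 1 := by simp [mul_comm]
  have hD' := hD (Fin n × Bool) Ω μ z hz R hzR σ hσ0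
  rw [hcard] at hD'
  obtain ⟨s, hs⟩ := hD'
  refine ⟨s, fun p w hp hw hmeas => ?_⟩
  let cre : H → Fin n × Bool → ℝ := fun x k =>
    if k.2 then re (inner 𝕜 (e k.1) x) else -im (inner 𝕜 (e k.1) x)
  let cim : H → Fin n × Bool → ℝ := fun x k =>
    if k.2 then im (inner 𝕜 (e k.1) x) else re (inner 𝕜 (e k.1) x)
  have hexp : ∀ x t, ana 𝕜 v x t = ∑ i, ana 𝕜 v (e i) t * inner 𝕜 (e i) x := fun x t =>
    (e.sum_inner_mul_inner _ _).symm
  have hre : ∀ x t, ∑ k, cre x k * z t k = re (ana 𝕜 v x t) := by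
    intro x t
    rw [hexp x t, map_sum, Fintype.sum_prod_type]
    refine sum_congr rfl fun i _ => ?_
    simp only [Fintype.sum_bool, cre, z, if_true, Bool.false_eq_true, if_false, mul_re]
    ring
  have him : ∀ x t, ∑ k, cim x k * z t k = im (ana 𝕜 v x t) := by
    intro x t
    rw [hexp x t, map_sum, Fintype.sum_prod_type]
    refine sum_congr rfl fun i _ => ?_
    simp only [Fintype.sum_bool, cim, z, if_true, Bool.false_eq_true, if_false, mul_im]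
    ring
  have hb1 : ∀ x : H, ‖x‖ = 1 → ∀ i, ‖inner 𝕜 (e i) x‖ ≤ 1 := fun x hx i => by
    refine (norm_inner_le_norm _ _).trans ?_
    rw [e.norm_eq_one, hx, mul_one]
  have hcre : ∀ x : H, ‖x‖ = 1 → ∀ k, |cre x k| ≤ 1 := fun x hx k => by
    simp only [cre]
    split_ifs
    · exact (abs_re_le_norm _).trans (hb1 x hx _)
    · rw [abs_neg]; exact (abs_im_le_norm _).trans (hb1 x hx _)
  have hcim : ∀ x : H, ‖x‖ = 1 → ∀ k, |cim x k| ≤ 1 := fun x hx k => by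
    simp only [cim]
    split_ifs
    · exact (abs_im_le_norm _).trans (hb1 x hx _)
    · exact (abs_re_le_norm _).trans (hb1 x hx _)
  let c : Fin 4 → Fin n × Bool → ℝ := ![cre p, cim p, cre w, cim w]
  have hc : ∀ i k, |c i k| ≤ 1 := by
    intro i k
    fin_cases i
    exacts [hcre p hp k, hcim p hp k, hcre w hw k, hcim w hw k]
  let ℓ : Ω → Fin 4 → ℝ := fun t i => ∑ k, c i k * z t k
  have l0 : ∀ t, ℓ t 0 = re (ana 𝕜 v p t) := hre p
  have l1 : ∀ t, ℓ t 1 = im (ana 𝕜 v p t) := him p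
  have l2 : ∀ t, ℓ t 2 = re (ana 𝕜 v w t) := hre w
  have l3 : ∀ t, ℓ t 3 = im (ana 𝕜 v w t) := him w
  set E := {t | a ≤ |dot (ana 𝕜 v p t) (ana 𝕜 v w t)| ∧
    ‖ana 𝕜 v p t‖ ≤ K ∧ ‖ana 𝕜 v w t‖ ≤ K} with hE
  have hEK : ∀ t ∈ E, ∀ i, |ℓ t i| ≤ K := by
    intro t ht i
    fin_cases i
    · exact (l0 t).symm ▸ (abs_re_le_norm _).trans ht.2.1
    · exact (l1 t).symm ▸ (abs_im_le_norm _).trans ht.2.1
    · exact (l2 t).symm ▸ (abs_re_le_norm _).trans ht.2.2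
    · exact (l3 t).symm ▸ (abs_im_le_norm _).trans ht.2.2
  let A : (Fin 4 → ℝ) → Set Ω := fun o => {t ∈ E | ∀ i, |ℓ t i - o i| ≤ σ}
  have hcov : E ⊆ ⋃ o ∈ G, A o := by
    intro t ht
    have h1 : ℓ t ∈ Metric.closedBall (0 : Fin 4 → ℝ) K := by
      rw [mem_closedBall_zero_iff, pi_norm_le_iff_of_nonneg hK.le]
      exact hEK t ht
    have := hF h1
    simp only [Set.mem_iUnion] at this ⊢
    obtain ⟨o, ho, h2⟩ := this
    refine ⟨o, hFfin.mem_toFinset.2 ho, ht, fun i => ?_⟩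
    exact ((dist_le_pi_dist (ℓ t) o i).trans (Metric.mem_ball.1 h2).le)
  have h1 : ∑ _o ∈ G, b / #G ≤ ∑ o ∈ G, μ.real (A o) := by
    rw [sum_const, nsmul_eq_mul, mul_div_cancel₀ _ hGr.ne']
    exact hmeas.trans ((measureReal_mono hcov (measure_ne_top _ _)).trans (measureReal_biUnion_finset_le _ _))
  obtain ⟨o, -, ho⟩ := exists_le_of_sum_le (card_pos.1 hG0) h1
  have hAne : (A o).Nonempty := by
    by_contra h
    rw [Set.not_nonempty_iff_eq_empty.1 h, measureReal_empty] at ho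
    exact absurd ho (not_le.2 (div_pos hb hGr))
  obtain ⟨t₀, ht₀, ht₀'⟩ := hAne
  have h2 := hs c o (A o) hc fun t ht => ht.2
  refine le_trans (mul_le_mul_of_nonneg_right (by linarith) (Nat.cast_nonneg _))
    (h2.trans (cnt_mono _ fun t ht => ?_))
  obtain ⟨r1, r2⟩ := robust hσ0 hσ1 hσ2 (ℓ t₀) (ℓ t) o
    (by rw [l0, l1, l2, l3]; exact ht₀.1) (hEK t₀ ht₀) ht₀' ht
  rw [l0, l1, l2, l3] at r1
  refine ⟨r1, ?_⟩
  have n1 : ∀ A : 𝕜, ‖A‖ ≤ |re A| + |im A| := fun A => by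
    refine abs_le_of_sq_le_sq' ?_ (by positivity) |>.2
    rw [norm_sq_eq_def, add_sq, sq_abs, sq_abs]
    nlinarith [mul_nonneg (abs_nonneg (re A)) (abs_nonneg (im A))]
  have a0 := r2 0
  have a1 := r2 1
  have a2 := r2 2
  have a3 := r2 3
  rw [l0] at a0
  rw [l1] at a1
  rw [l2] at a2
  rw [l3] at a3
  linarith [n1 (ana 𝕜 v p t), n1 (ana 𝕜 v w t)]

lemma pointwise {𝕜 : Type*} [RCLike 𝕜] {X Y P W : 𝕜} {S r a K : ℝ} (hr : 0 < r) (hrS : r ≤ S)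
    (hK : 0 < K) (hP : X + Y = (S : 𝕜) * P) (hW : X - Y = (r : 𝕜) * W) (h1 : a ≤ |dot P W|)
    (h2 : ‖P‖ + ‖W‖ ≤ K) : r * a / K ≤ |‖X‖ - ‖Y‖| := by
  have hS : 0 < S := hr.trans_le hrS
  have e1 : ‖X‖ ^ 2 - ‖Y‖ ^ 2 = S * r * dot P W := by
    have : ‖X‖ ^ 2 - ‖Y‖ ^ 2 = dot (X + Y) (X - Y) := by
      simp only [norm_sq_eq_def, map_add, map_sub, dot]; ring
    rw [this, hP, hW]
    simp only [dot, re_ofReal_mul, im_ofReal_mul]; ring
  have e2 : ‖X‖ + ‖Y‖ ≤ S * K := by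
    have b1 : ‖X + Y‖ = S * ‖P‖ := by rw [hP, norm_mul, norm_ofReal, abs_of_pos hS]
    have b2 : ‖X - Y‖ = r * ‖W‖ := by rw [hW, norm_mul, norm_ofReal, abs_of_pos hr]
    have b3 := norm_add_le (X + Y) (X - Y)
    have b4 := norm_sub_le (X + Y) (X - Y)
    rw [show X + Y + (X - Y) = 2 * X by ring, norm_mul] at b3
    rw [show X + Y - (X - Y) = 2 * Y by ring, norm_mul] at b4
    simp only [norm_ofNat] at b3 b4
    have b5 := mul_le_mul_of_nonneg_right hrS (norm_nonneg W)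
    nlinarith
  have e3 : S * r * |dot P W| = |‖X‖ - ‖Y‖| * (‖X‖ + ‖Y‖) := by
    rw [← abs_of_nonneg (by positivity : 0 ≤ ‖X‖ + ‖Y‖), ← abs_mul,
      ← abs_of_pos (mul_pos hS hr), ← abs_mul, ← e1]
    congr 1; ring
  rw [div_le_iff₀ hK]
  refine le_of_mul_le_mul_left ?_ hS
  have e4 := mul_le_mul_of_nonneg_left e2 (abs_nonneg (‖X‖ - ‖Y‖))
  have e5 := mul_le_mul_of_nonneg_left h1 (mul_pos hS hr).le
  nlinarith

lemma stable_of_good {𝕜 : Type*} [RCLike 𝕜] {H : Type*} [NormedAddCommGroup H]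
    [InnerProductSpace 𝕜 H] {Ω : Type*} (v : Ω → H) {m : ℕ} (hm : 0 < m) (s : Fin m → Ω)
    {a K b : ℝ} (ha : 0 < a) (hK : 0 < K) (hb : 0 < b)
    (hs : ∀ p w : H, ‖p‖ = 1 → ‖w‖ = 1 → im (inner 𝕜 p w) = 0 →
      b * m ≤ cnt s (fun t => a ≤ |dot (ana 𝕜 v p t) (ana 𝕜 v w t)| ∧
          ‖ana 𝕜 v p t‖ + ‖ana 𝕜 v w t‖ ≤ K)) :
    StableFin 𝕜 (fun j => (((Real.sqrt m)⁻¹ : ℝ) : 𝕜) • v (s j)) (K / (a * Real.sqrt b)) := by
  classical
  intro x y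
  have hmr : (0 : ℝ) < m := by exact_mod_cast hm
  obtain ⟨l, hl, hl'⟩ := exists_norm_eq_mul_self (inner 𝕜 x y)
  refine (ciInf_le ⟨0, by rintro _ ⟨l, rfl⟩; exact norm_nonneg _⟩
    (⟨l, by simpa using hl⟩ : Metric.sphere (0 : 𝕜) 1)).trans ?_
  show ‖x - l • y‖ ≤ _
  set y' := l • y with hy'
  have hxy : inner 𝕜 x y' = (‖inner 𝕜 x y‖ : 𝕜) := by rw [hy', inner_smul_right, ← hl']
  rcases eq_or_ne (x - y') 0 with h0 | h0
  · rw [h0, norm_zero]; positivity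
  have hr : 0 < ‖x - y'‖ := norm_pos_iff.2 h0
  have hrS : ‖x - y'‖ ≤ ‖x + y'‖ := by
    refine abs_le_of_sq_le_sq' ?_ (norm_nonneg _) |>.2
    rw [@norm_sub_sq 𝕜, @norm_add_sq 𝕜, hxy, ofReal_re]
    linarith [norm_nonneg (inner 𝕜 x y)]
  have hS : 0 < ‖x + y'‖ := hr.trans_le hrS
  have hunit : ∀ u : H, 0 < ‖u‖ → ‖((‖u‖⁻¹ : ℝ) : 𝕜) • u‖ = 1 := fun u hu => by
    rw [norm_smul, norm_ofReal, abs_of_pos (inv_pos.2 hu), inv_mul_cancel₀ hu.ne']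
  have hback : ∀ (u : H) t, 0 < ‖u‖ →
      ana 𝕜 v u t = (‖u‖ : 𝕜) * ana 𝕜 v (((‖u‖⁻¹ : ℝ) : 𝕜) • u) t := fun u t hu => by
    unfold ana
    rw [inner_smul_right, ← mul_assoc, ← ofReal_mul, mul_inv_cancel₀ hu.ne', ofReal_one, one_mul]
  have him : im (inner 𝕜 (((‖x + y'‖⁻¹ : ℝ) : 𝕜) • (x + y')) (((‖x - y'‖⁻¹ : ℝ) : 𝕜) • (x - y')))
      = 0 := by
    have hyx : inner 𝕜 y' x = (‖inner 𝕜 x y‖ : 𝕜) := by
      rw [← inner_conj_symm, hxy, conj_ofReal]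
    rw [inner_smul_left, inner_smul_right, conj_ofReal, im_ofReal_mul, im_ofReal_mul,
      inner_add_left, inner_sub_right, inner_sub_right, hxy, hyx]
    simp
  have h1 := hs _ _ (hunit _ hS) (hunit _ hr) him
  have h2 : (‖x - y'‖ * a / K) ^ 2 * b ≤ ∑ j, (‖inner 𝕜 ((((Real.sqrt m)⁻¹ : ℝ) : 𝕜) • v (s j)) x‖ -
      ‖inner 𝕜 ((((Real.sqrt m)⁻¹ : ℝ) : 𝕜) • v (s j)) y‖) ^ 2 := by
    have e1 : (‖x - y'‖ * a / K) ^ 2 * b = (‖x - y'‖ * a / K) ^ 2 / m * (b * m) := by field_simp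
    rw [e1]
    refine (mul_le_mul_of_nonneg_left h1 (by positivity)).trans ?_
    unfold cnt
    rw [mul_sum]
    refine sum_le_sum fun j _ => ?_
    split_ifs with hj
    · have hp := pointwise (X := ana 𝕜 v x (s j)) (Y := ana 𝕜 v y' (s j)) hr hrS hK
        (by rw [← hback _ _ hS]; exact (inner_add_right _ _ _).symm)
        (by rw [← hback _ _ hr]; exact (inner_sub_right _ _ _).symm) hj.1 hj.2
      have e2 : ‖ana 𝕜 v y' (s j)‖ = ‖inner 𝕜 (v (s j)) y‖ := by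
        unfold ana
        rw [hy', inner_smul_right, norm_mul, hl, one_mul]
      rw [e2] at hp
      rw [inner_smul_left, inner_smul_left, conj_ofReal, norm_mul, norm_mul, ← mul_sub, mul_pow,
        norm_ofReal, sq_abs, inv_pow, Real.sq_sqrt hmr.le, mul_one, div_eq_inv_mul]
      refine mul_le_mul_of_nonneg_left ?_ (by positivity)
      rw [← sq_abs (‖inner 𝕜 (v (s j)) x‖ - ‖inner 𝕜 (v (s j)) y‖)]
      exact pow_le_pow_left₀ (by positivity) hp 2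
    · rw [mul_zero]; positivity
  have h3 := Real.sqrt_le_sqrt h2
  rw [Real.sqrt_mul (sq_nonneg _), Real.sqrt_sq (by positivity)] at h3
  have hb' : 0 < Real.sqrt b := Real.sqrt_pos.2 hb
  calc ‖x - y'‖ = K / (a * Real.sqrt b) * (‖x - y'‖ * a / K * Real.sqrt b) := by field_simp
    _ ≤ _ := mul_le_mul_of_nonneg_left h3 (by positivity)

lemma span_of_stable {𝕜 : Type*} [RCLike 𝕜] {H : Type*} [NormedAddCommGroup H]
    [InnerProductSpace 𝕜 H] [FiniteDimensional 𝕜 H] {m : ℕ} (y : Fin m → H) {κ : ℝ}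
    (h : StableFin 𝕜 y κ) : Submodule.span 𝕜 (Set.range y) = ⊤ := by
  rw [← Submodule.orthogonal_eq_bot_iff, eq_bot_iff]
  intro x hx
  have h0 : ∀ j, inner 𝕜 (y j) x = 0 := fun j =>
    hx _ (Submodule.subset_span ⟨j, rfl⟩)
  have h1 := h x 0
  have : Nonempty (Metric.sphere (0 : 𝕜) 1) := ⟨⟨1, by simp⟩⟩
  simp only [smul_zero, sub_zero, ciInf_const, h0, inner_zero_right, norm_zero, sub_self] at h1
  simpa using h1

theorem main (𝕜 : Type*) [RCLike 𝕜] (C β : ℝ) (hC : 0 < C) (hβ : 0 < β) :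
    ∃ D κ : ℝ, 0 < D ∧ 0 < κ ∧ ∀ n : ℕ, ∃ m : ℕ, (m : ℝ) ≤ D * n ∧
      ∀ (H : Type u) [NormedAddCommGroup H] [InnerProductSpace 𝕜 H] [FiniteDimensional 𝕜 H],
        Module.finrank 𝕜 H = n →
      ∀ (Ω : Type w) [MeasurableSpace Ω] (μ : Measure Ω) [IsProbabilityMeasure μ] (v : Ω → H),
        IsParseval 𝕜 μ v → StableLp 1 μ (Set.range (ana 𝕜 v)) C →
        StableLp 2 μ (Set.range (ana 𝕜 v)) C → (∀ t, ‖v t‖ ≤ β * Real.sqrt n) →
        ∃ s : Fin m → Ω,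
          Submodule.span 𝕜 (Set.range fun j => (((Real.sqrt m)⁻¹ : ℝ) : 𝕜) • v (s j)) = ⊤ ∧
          StableFin 𝕜 (fun j => (((Real.sqrt m)⁻¹ : ℝ) : 𝕜) • v (s j)) κ := by
  set c : ℝ := 1 / (β * C ^ 3) with hc
  have hc0 : 0 < c := by positivity
  obtain ⟨D, b, hD, hb, hmain⟩ := sample_good.{u, w} 𝕜 (c ^ 2 / 16) (8 / c) (c ^ 2 / 16)
    (by positivity) (by positivity) (by positivity)
  refine ⟨3 * D, 4 * (8 / c + 1) / (c ^ 2 / 16 / 2 * Real.sqrt b), by positivity, by positivity,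
    fun n => ?_⟩
  rcases Nat.eq_zero_or_pos n with rfl | hn
  · refine ⟨0, by simp, ?_⟩
    intro H _ _ _ hH Ω _ μ _ v _ _ _ _
    have : Subsingleton H := Module.finrank_zero_iff.1 hH
    refine ⟨Fin.elim0, Subsingleton.elim _ _, fun x y => ?_⟩
    have : Nonempty (Metric.sphere (0 : 𝕜) 1) := ⟨⟨1, by simp⟩⟩
    simp [Subsingleton.elim x 0, Subsingleton.elim y 0]
  refine ⟨D * (2 * n + 1), ?_, ?_⟩
  · have : (1 : ℝ) ≤ n := by exact_mod_cast hn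
    have : (0 : ℝ) ≤ D := Nat.cast_nonneg D
    push_cast
    nlinarith
  intro H _ _ _ hH Ω _ μ _ v hP h1 h2 hR
  obtain ⟨s, hs⟩ := hmain H n hH Ω μ v hP.1 _ hR
  have hst := stable_of_good (𝕜 := 𝕜) v (by positivity) s (a := c ^ 2 / 16 / 2)
    (K := 4 * (8 / c + 1)) (by positivity) (by positivity) hb fun p w hp hw him =>
      hs p w hp hw (small_ball hP hC hβ hc (by rw [hH]; exact hR) h1 h2 hp hw him)
  exact ⟨s, span_of_stable _ hst, hst⟩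

end Pool.Agent.H66Z.PR
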