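import Mathlib

set_option autoImplicit false

open Finset

namespace Pool.Agent.H66Z.PR

open Classical in
/-- number of indices whose point satisfies `P` -/
noncomputable def cnt {ι Ω : Type*} [Fintype ι] (t : ι → Ω) (P : Ω → Prop) : ℝ :=
  ∑ j, if P (t j) then 1 else 0

/-- intersection of homogeneous half-spaces -/
def Box {κ ρ : Type*} [Fintype κ] (c : ρ → κ → ℝ) (y : κ → ℝ) : Prop :=
  ∀ i, 0 ≤ ∑ k, c i k * y k

lemma card_small_subsets {ι : Type*} [Fintype ι] [DecidableEq ι] {d : ℕ} (hd : 0 < d)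
    (hN : d ≤ Fintype.card ι) :
    ((univ.filter (fun S : Finset ι => #S ≤ d)).card : ℝ) ≤
      (Real.exp 1 * Fintype.card ι / d) ^ d := by
  set N := Fintype.card ι with hNdef
  have hN0 : (0 : ℝ) < N := by exact_mod_cast hd.trans_le hN
  have hd0 : (0 : ℝ) < d := by exact_mod_cast hd
  set s : ℝ := d / N with hs
  have hs0 : 0 < s := div_pos hd0 hN0
  have hs1 : s ≤ 1 := by rw [hs, div_le_one hN0]; exact_mod_cast hN
  have h1 : ((univ.filter (fun S : Finset ι => #S ≤ d)).card : ℝ) * s ^ d ≤ (s + 1) ^ N := by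
    have h2 := Finset.sum_pow_mul_eq_add_pow s 1 (univ : Finset ι)
    rw [card_univ, ← hNdef] at h2
    rw [← h2, powerset_univ]
    calc ((univ.filter (fun S : Finset ι => #S ≤ d)).card : ℝ) * s ^ d
        = ∑ S ∈ univ.filter (fun S : Finset ι => #S ≤ d), s ^ d := by simp
      _ ≤ ∑ S ∈ univ.filter (fun S : Finset ι => #S ≤ d), s ^ #S * 1 ^ (N - #S) := by
          refine sum_le_sum fun S hS => ?_
          rw [one_pow, mul_one]
          exact pow_le_pow_of_le_one hs0.le hs1 (mem_filter.1 hS).2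
      _ ≤ ∑ S : Finset ι, s ^ #S * 1 ^ (N - #S) :=
          sum_le_sum_of_subset_of_nonneg (filter_subset _ _) fun _ _ _ => by positivity
  have h3 : (s + 1) ^ N ≤ Real.exp 1 ^ d := by
    calc (s + 1) ^ N ≤ Real.exp s ^ N :=
          pow_le_pow_left₀ (by positivity) (Real.add_one_le_exp s) N
      _ = Real.exp (N * s) := by rw [Real.exp_nat_mul]
      _ = Real.exp 1 ^ d := by
          rw [← Real.exp_nat_mul, hs]; congr 1; field_simp
  have h4 : (Real.exp 1 * N / d) ^ d * s ^ d = Real.exp 1 ^ d := by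
    rw [← mul_pow, hs]; congr 1; field_simp
  exact le_of_mul_le_mul_right (by rw [h4]; exact h1.trans h3) (pow_pos hs0 d)

open Classical in
lemma growth_one {ι κ : Type*} [Fintype ι] [Fintype κ] (y : ι → κ → ℝ)
    (hd : 0 < Fintype.card κ) (hN : Fintype.card κ ≤ Fintype.card ι) :
    ((univ.filter (fun S : Finset ι => ∃ c : κ → ℝ, ∀ j, j ∈ S ↔ 0 ≤ ∑ k, c k * y j k)).card : ℝ)
      ≤ (Real.exp 1 * Fintype.card ι / Fintype.card κ) ^ Fintype.card κ := by
  refine le_trans ?_ (card_small_subsets hd hN)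
  rw [Nat.cast_le]
  refine (card_le_card_shatterer _).trans (card_le_card fun S hS => ?_)
  rw [mem_shatterer] at hS
  rw [mem_filter]
  refine ⟨mem_univ _, ?_⟩
  by_contra hlt
  push Not at hlt
  have hdep : ¬ LinearIndependent ℝ (fun j : S => y j) := by
    intro h
    have := h.fintype_card_le_finrank
    simp only [Fintype.card_coe, Module.finrank_fintype_fun_eq_card] at this
    omega
  obtain ⟨g, hg, j₀, hj₀⟩ := Fintype.not_linearIndependent_iff.1 hdep
  have key : ∀ g : S → ℝ, ∑ j, g j • y j = 0 → ∀ j₀, ¬ g j₀ < 0 := by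
    intro g hg j₀ hj₀
    obtain ⟨u, hu, hSu⟩ := hS (t := (univ.filter (fun j : S => 0 ≤ g j)).map
      (Function.Embedding.subtype _)) (by
        intro j hj
        obtain ⟨j', _, rfl⟩ := mem_map.1 hj
        exact j'.2)
    obtain ⟨c, hc⟩ := (mem_filter.1 hu).2
    have hmem : ∀ j : S, (0 ≤ ∑ k, c k * y j k) ↔ 0 ≤ g j := by
      intro j
      rw [← hc]
      have : (j : ι) ∈ S ∩ u ↔ 0 ≤ g j := by
        rw [hSu]; simp
      rw [← this]; simp
    have hsum : ∑ j : S, g j * ∑ k, c k * y j k = 0 := by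
      have : ∀ k, ∑ j : S, g j * y j k = 0 := fun k => by
        simpa [Finset.sum_apply] using congrFun hg k
      simp_rw [mul_sum]
      rw [sum_comm]
      refine sum_eq_zero fun k _ => ?_
      have h2 : ∑ j : S, g j * (c k * y j k) = c k * ∑ j : S, g j * y j k := by
        rw [mul_sum]; exact sum_congr rfl fun j _ => by ring
      rw [h2, this k, mul_zero]
    have hpos : 0 < ∑ j : S, g j * ∑ k, c k * y j k := by
      refine sum_pos' (fun j _ => ?_) ⟨j₀, mem_univ _, ?_⟩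
      · by_cases h : 0 ≤ g j
        · exact mul_nonneg h ((hmem j).2 h)
        · exact (mul_pos_of_neg_of_neg (not_le.1 h) (not_le.1 (mt (hmem j).1 h))).le
      · exact mul_pos_of_neg_of_neg hj₀ (not_le.1 (mt (hmem j₀).1 (not_le.2 hj₀)))
    exact hpos.ne' hsum
  rcases lt_or_gt_of_ne hj₀ with h | h
  · exact key g hg j₀ h
  · refine key (-g) ?_ j₀ (by simpa using h)
    simp only [Pi.neg_apply, neg_smul, sum_neg_distrib, hg, neg_zero]

open Classical in
lemma growth_box {ι κ ρ : Type*} [Fintype ι] [Fintype κ] [Fintype ρ] (y : ι → κ → ℝ)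
    (hd : 0 < Fintype.card κ) (hN : Fintype.card κ ≤ Fintype.card ι) :
    ((univ.filter (fun S : Finset ι => ∃ c : ρ → κ → ℝ, ∀ j, j ∈ S ↔ Box c (y j))).card : ℝ)
      ≤ ((Real.exp 1 * Fintype.card ι / Fintype.card κ) ^ Fintype.card κ) ^ Fintype.card ρ := by
  set A := univ.filter (fun S : Finset ι => ∃ c : κ → ℝ, ∀ j, j ∈ S ↔ 0 ≤ ∑ k, c k * y j k)
  have h1 : univ.filter (fun S : Finset ι => ∃ c : ρ → κ → ℝ, ∀ j, j ∈ S ↔ Box c (y j)) ⊆
      (Fintype.piFinset fun _ : ρ => A).image fun T => univ.filter fun j => ∀ i, j ∈ T i := by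
    intro S hS
    obtain ⟨c, hc⟩ := (mem_filter.1 hS).2
    refine mem_image.2 ⟨fun i => univ.filter fun j => 0 ≤ ∑ k, c i k * y j k, ?_, ?_⟩
    · rw [Fintype.mem_piFinset]
      intro i
      exact mem_filter.2 ⟨mem_univ _, c i, fun j => by simp⟩
    · ext j
      simp [hc, Box]
  have h2 := (card_le_card h1).trans card_image_le
  rw [Fintype.card_piFinset, prod_const, card_univ] at h2
  calc _ ≤ ((#A : ℝ)) ^ Fintype.card ρ := by exact_mod_cast h2
    _ ≤ _ := pow_le_pow_left₀ (by positivity) (growth_one y hd hN) _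

/-- sign attached to a Boolean -/
def sg (b : Bool) : ℝ := if b then 1 else -1

lemma exists_signs {α : Type*} {N : ℕ} (hN : 0 < N) (B : Finset α) (a : α → Fin N → ℝ)
    (ha : ∀ S i, |a S i| ≤ 1) (lam : ℝ) (hl : 0 < lam)
    (hB : (#B : ℝ) ≤ Real.exp (lam ^ 2 / (2 * N))) :
    ∃ ε : Fin N → Bool, ∀ S ∈ B, -lam ≤ ∑ i, sg (ε i) * a S i := by
  by_contra hcon
  push Not at hcon
  have hN0 : (0 : ℝ) < N := by exact_mod_cast hN
  set θ : ℝ := lam / N with hθ
  have hθ0 : 0 < θ := div_pos hl hN0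
  have h1 : ∀ ε : Fin N → Bool,
      Real.exp (θ * lam) < ∑ S ∈ B, Real.exp (-θ * ∑ i, sg (ε i) * a S i) := by
    intro ε
    obtain ⟨S, hS, hlt⟩ := hcon ε
    refine lt_of_lt_of_le ?_ (single_le_sum
      (f := fun S => Real.exp (-θ * ∑ i, sg (ε i) * a S i)) (fun _ _ => (Real.exp_pos _).le) hS)
    exact Real.exp_lt_exp.2 (by nlinarith)
  have h2 : ∀ S, ∑ ε : Fin N → Bool, Real.exp (-θ * ∑ i, sg (ε i) * a S i) ≤
      2 ^ N * Real.exp (θ ^ 2 * N / 2) := by
    intro S
    have e1 : ∀ ε : Fin N → Bool, Real.exp (-θ * ∑ i, sg (ε i) * a S i) =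
        ∏ i, Real.exp (-θ * (sg (ε i) * a S i)) := fun ε => by rw [mul_sum, Real.exp_sum]
    simp_rw [e1]
    have e2 := Finset.prod_univ_sum (fun _ : Fin N => (univ : Finset Bool))
      (fun i b => Real.exp (-θ * (sg b * a S i)))
    rw [Fintype.piFinset_univ] at e2
    rw [← e2]
    calc ∏ i, ∑ b, Real.exp (-θ * (sg b * a S i)) ≤ ∏ _i : Fin N, 2 * Real.exp (θ ^ 2 / 2) := by
          refine prod_le_prod (fun i _ => sum_nonneg fun _ _ => (Real.exp_pos _).le) fun i _ => ?_
          have hc := Real.cosh_le_exp_half_sq (θ * a S i)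
          rw [Real.cosh_eq] at hc
          have hsq : (θ * a S i) ^ 2 / 2 ≤ θ ^ 2 / 2 := by
            have : a S i ^ 2 ≤ 1 := by simpa using ha S i
            rw [mul_pow]; nlinarith [sq_nonneg θ]
          have := Real.exp_le_exp.2 hsq
          simp only [Fintype.sum_bool, sg, if_true, Bool.false_eq_true, if_false]
          rw [show -θ * (1 * a S i) = -(θ * a S i) by ring,
            show -θ * (-1 * a S i) = θ * a S i by ring]
          linarith
      _ = 2 ^ N * Real.exp (θ ^ 2 * N / 2) := by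
          rw [prod_const, card_univ, Fintype.card_fin, mul_pow, ← Real.exp_nat_mul]
          congr 2; ring
  have h3 : ∑ _ε : Fin N → Bool, Real.exp (θ * lam) <
      ∑ ε : Fin N → Bool, ∑ S ∈ B, Real.exp (-θ * ∑ i, sg (ε i) * a S i) :=
    sum_lt_sum_of_nonempty univ_nonempty fun ε _ => h1 ε
  rw [sum_comm] at h3
  have h4 := h3.trans_le (sum_le_sum fun S _ => h2 S)
  simp only [sum_const, card_univ, Fintype.card_fun, Fintype.card_bool, Fintype.card_fin,
    nsmul_eq_mul, Nat.cast_pow, Nat.cast_ofNat] at h4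
  have h5 : Real.exp (θ * lam) = Real.exp (lam ^ 2 / (2 * N)) * Real.exp (θ ^ 2 * N / 2) := by
    rw [← Real.exp_add, hθ]; congr 1; field_simp; ring
  rw [h5] at h4
  have h6 : (0 : ℝ) < 2 ^ N * Real.exp (θ ^ 2 * N / 2) := by positivity
  nlinarith

lemma cnt_equiv {ι ι' Ω : Type*} [Fintype ι] [Fintype ι'] (e : ι' ≃ ι) (t : ι → Ω)
    (P : Ω → Prop) : cnt (fun j => t (e j)) P = cnt t P := by
  classical
  unfold cnt
  exact Equiv.sum_comp e (fun j => if P (t j) then (1 : ℝ) else 0)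

lemma halving {ι κ ρ Ω : Type*} [Fintype ι] [Fintype κ] [Fintype ρ] (z : Ω → κ → ℝ)
    (hd : 0 < Fintype.card κ) {N : ℕ} (hN : Fintype.card κ ≤ N) (hι : Fintype.card ι = 2 * N)
    (η : ℝ) (hη : 0 < η)
    (hA : 4 * (Fintype.card ρ : ℝ) ^ 2 ≤ η ^ 4 * (2 * N / Fintype.card κ)) (t : ι → Ω) :
    ∃ s : Fin N → Ω, ∀ c : ρ → κ → ℝ,
      cnt t (fun ω => Box c (z ω)) / 2 - η * N ≤ cnt s (fun ω => Box c (z ω)) := by
  classical
  have hN0 : 0 < N := hd.trans_le hN
  have hNr : (0 : ℝ) < N := by exact_mod_cast hN0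
  have hdr : (0 : ℝ) < Fintype.card κ := by exact_mod_cast hd
  let e : Fin N × Bool ≃ ι := Fintype.equivOfCardEq (by simp [hι, mul_comm])
  set B := univ.filter (fun S : Finset ι => ∃ c : ρ → κ → ℝ, ∀ j, j ∈ S ↔ Box c (z (t j)))
  have hB := growth_box (ρ := ρ) (fun j => z (t j)) hd (by rw [hι]; omega)
  set d : ℝ := (Fintype.card κ : ℝ) with hdd
  set r : ℝ := (Fintype.card ρ : ℝ) with hrr
  set x : ℝ := 2 * N / d with hx
  have hx0 : 0 < x := by positivity
  have hB' : (#B : ℝ) ≤ Real.exp ((2 * N * η) ^ 2 / (2 * N)) := by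
    refine hB.trans ?_
    have e1 : Real.exp 1 * (Fintype.card ι : ℝ) / d = Real.exp (1 + Real.log x) := by
      rw [Real.exp_add, Real.exp_log hx0, hι, hx]; push_cast; ring
    rw [e1, ← pow_mul, ← Real.exp_nat_mul]
    refine Real.exp_le_exp.2 ?_
    have hs : 0 < Real.sqrt x := Real.sqrt_pos.2 hx0
    have hlog : 1 + Real.log x ≤ 2 * Real.sqrt x := by
      have := Real.log_le_sub_one_of_pos hs
      rw [Real.log_sqrt hx0.le] at this
      linarith
    have hr0 : 0 ≤ r := by positivity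
    have h2 : 2 * r ≤ η ^ 2 * Real.sqrt x := by
      apply le_of_sq_le_sq _ (by positivity) |>.trans le_rfl
      rw [mul_pow, mul_pow, Real.sq_sqrt hx0.le]
      nlinarith
    have h3 : (2 * N * η) ^ 2 / (2 * N) = d * (η ^ 2 * x) := by rw [hx]; field_simp
    rw [h3]
    push_cast
    have h4 : r * (1 + Real.log x) ≤ η ^ 2 * x := by
      calc r * (1 + Real.log x) ≤ r * (2 * Real.sqrt x) := mul_le_mul_of_nonneg_left hlog hr0
        _ = (2 * r) * Real.sqrt x := by ring
        _ ≤ η ^ 2 * Real.sqrt x * Real.sqrt x := mul_le_mul_of_nonneg_right h2 hs.le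
        _ = η ^ 2 * x := by rw [mul_assoc, Real.mul_self_sqrt hx0.le]
    calc d * r * (1 + Real.log x) = d * (r * (1 + Real.log x)) := by ring
      _ ≤ _ := mul_le_mul_of_nonneg_left h4 hdr.le
  obtain ⟨ε, hε⟩ := exists_signs hN0 B
    (fun S i => (if e (i, true) ∈ S then 1 else 0) - (if e (i, false) ∈ S then 1 else 0))
    (fun S i => by split_ifs <;> simp) (2 * N * η) (by positivity) hB'
  refine ⟨fun i => t (e (i, ε i)), fun c => ?_⟩
  have h1 := hε (univ.filter fun j => Box c (z (t j))) (mem_filter.2 ⟨mem_univ _, c, by simp⟩)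
  simp only [mem_filter, mem_univ, true_and] at h1
  rw [← cnt_equiv e t]
  unfold cnt
  rw [Fintype.sum_prod_type]
  have h2 : ∀ i : Fin N, (if Box c (z (t (e (i, ε i)))) then (1 : ℝ) else 0) =
      (∑ b, if Box c (z (t (e (i, b)))) then (1 : ℝ) else 0) / 2 +
      sg (ε i) * ((if Box c (z (t (e (i, true)))) then (1 : ℝ) else 0) -
        (if Box c (z (t (e (i, false)))) then (1 : ℝ) else 0)) / 2 := by
    intro i
    rw [Fintype.sum_bool]
    cases ε i <;> simp only [sg, if_true, Bool.false_eq_true, if_false] <;> ring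
  rw [sum_congr rfl fun i _ => h2 i, sum_add_distrib, ← sum_div, ← sum_div]
  linarith

lemma iter_halving {κ ρ Ω : Type*} [Fintype κ] [Fintype ρ] (z : Ω → κ → ℝ)
    (hd : 0 < Fintype.card κ) (k : ℕ) : ∀ (N : ℕ), Fintype.card κ ≤ N → ∀ η : ℝ, 0 < η →
      20000 * (Fintype.card ρ : ℝ) ^ 2 ≤ η ^ 4 * (N / Fintype.card κ) →
      ∀ t : Fin (2 ^ k * N) → Ω, ∃ s : Fin N → Ω, ∀ c : ρ → κ → ℝ,
        cnt t (fun ω => Box c (z ω)) / 2 ^ k - η * N ≤ cnt s (fun ω => Box c (z ω)) := by
  induction k with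
  | zero =>
    intro N _ η hη _ t
    refine ⟨fun j => t (finCongr (by simp) j), fun c => ?_⟩
    rw [cnt_equiv]
    have : 0 ≤ η * N := by positivity
    simp only [pow_zero, div_one]
    linarith
  | succ k ih =>
    intro N hN η hη hA t
    have hq : (0 : ℝ) ≤ η ^ 4 * (N / Fintype.card κ) := by positivity
    obtain ⟨s', hs'⟩ := ih (2 * N) (by omega) (9 / 10 * η) (by positivity) (by
      push_cast
      have : (9 / 10 * η) ^ 4 * (2 * N / Fintype.card κ) =
        (6561 / 5000) * (η ^ 4 * (N / Fintype.card κ)) := by ring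
      rw [this]; nlinarith) (fun j => t (finCongr (by ring) j))
    obtain ⟨s, hs⟩ := halving (ρ := ρ) z hd hN (Fintype.card_fin _) (1 / 10 * η) (by positivity) (by
      have : (1 / 10 * η) ^ 4 * (2 * N / Fintype.card κ) =
        (1 / 5000) * (η ^ 4 * (N / Fintype.card κ)) := by ring
      rw [this]; nlinarith) s'
    refine ⟨s, fun c => ?_⟩
    have h1 := hs' c
    have h2 := hs c
    rw [cnt_equiv] at h1
    push_cast at h1
    have : cnt t (fun ω => Box c (z ω)) / 2 ^ (k + 1) = cnt t (fun ω => Box c (z ω)) / 2 ^ k / 2 := by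
      rw [div_div, ← pow_succ]
    rw [this]
    linarith

end Pool.Agent.H66Z.PR
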